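import Mathlib
import Pool.Agent.Q117.Ecc.Basic
import Pool.Agent.Q117.Ecc.Main

set_option autoImplicit false

open Q117.Ecc

namespace Pool.Agent.Results.MP_b44c21_co.FloorBound

/-- Every finite connected simple graph satisfies
`b(G) ≥ ⌊average eccentricity + max_v α(G[N(v)])⌋`. -/
theorem result : ∀ (V : Type) [Fintype V] (G : SimpleGraph V), G.Connected →
    ⌊avgEcc G + (maxLocInd G : ℝ)⌋ ≤ (bipNum G : ℤ) :=
  fun _ _ _ hc => main_floor hc

end Pool.Agent.Results.MP_b44c21_co.FloorBound
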